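import Pool.Agent.H15.HLU.Targets

/-! MP_3713ea_co, CRT: a congruence modulo an odd number and modulo 8. -/

set_option autoImplicit false

namespace Pool.Agent.H89.HLU

open Pool.Agent.H51.Homog Pool.Agent.H22.HSQ Pool.Agent.H15.HLS Pool.Agent.H15.HLU

theorem pf_CRT : T_CRT := by
  intro O τ a ρ l hO hτ h2 ha1 ha3 h1 h4 h8
  have hO0 : O ≠ 0 := by
    rintro rfl
    exact absurd hO (by decide)
  have : NeZero O := ⟨hO0⟩
  have hτO : Nat.Coprime τ O := Nat.Coprime.coprime_mul_left_right hτ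
  have hτ2 : Nat.Coprime τ 2 := Nat.Coprime.coprime_mul_right_right hτ
  have hτodd : τ % 2 = 1 := by
    have := Nat.coprime_two_right.1 hτ2
    exact Nat.odd_iff.1 this
  have h2O : Nat.Coprime 2 O := Nat.coprime_two_left.2 hO
  have hc : Nat.Coprime (2 ^ a * τ) O := (h2O.pow_left a).mul_left hτO
  have h8O : Nat.Coprime 8 O := by
    have := h2O.pow_left 3
    norm_num at this
    exact this
  -- modulo O
  obtain ⟨x, hx⟩ : ∃ x : ℕ, 2 ^ a * τ * x ≡ ρ [MOD O] := by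
    refine ⟨(((ZMod.unitOfCoprime _ hc)⁻¹ : (ZMod O)ˣ) * (ρ : ZMod O) : ZMod O).val, ?_⟩
    rw [← ZMod.natCast_eq_natCast_iff]
    rw [Nat.cast_mul, ZMod.natCast_val, ZMod.cast_id', id, ← mul_assoc]
    have h3 : ((2 ^ a * τ : ℕ) : ZMod O) = (ZMod.unitOfCoprime _ hc : (ZMod O)ˣ) :=
      (ZMod.coe_unitOfCoprime _ hc).symm
    rw [h3, Units.mul_inv, one_mul]
  -- modulo 8
  obtain ⟨z, hz, hz8⟩ : ∃ z : ℕ, z % 2 = 1 ∧ 2 ^ a * τ * z ≡ ρ [MOD 8] := by
    have hcase : a = 1 ∨ a = 2 ∨ a = 3 := by omega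
    rcases hcase with rfl | rfl | rfl
    · have hρ := h1 rfl
      refine ⟨τ * (ρ / 2), ?_, ?_⟩
      · rw [Nat.mul_mod, hτodd]
        omega
      · have e1 : 2 ^ 1 * τ * (τ * (ρ / 2)) = (τ * τ) * (2 * (ρ / 2)) := by ring
        have e2 : 2 * (ρ / 2) = ρ := Nat.mul_div_cancel' h2
        have e3 : τ * τ ≡ 1 [MOD 8] := by
          have : τ % 8 = 1 ∨ τ % 8 = 3 ∨ τ % 8 = 5 ∨ τ % 8 = 7 := by omega
          unfold Nat.ModEq
          rw [Nat.mul_mod]
          rcases this with h | h | h | h <;> rw [h]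
        rw [e1, e2]
        have := e3.mul_right ρ
        rwa [one_mul] at this
    · have hρ := h4 rfl
      refine ⟨1, rfl, ?_⟩
      unfold Nat.ModEq
      omega
    · have hρ := h8 rfl
      refine ⟨1, rfl, ?_⟩
      unfold Nat.ModEq
      omega
  obtain ⟨N₀, hN8, hNO⟩ := Nat.chineseRemainder h8O z x
  set M := 8 * O with hM
  have hM0 : 0 < M := by positivity
  obtain ⟨M', hM'⟩ := Nat.exists_eq_succ_of_ne_zero hM0.ne'
  have hNN : l + (N₀ + l * M') % M ≡ N₀ [MOD M] := by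
    have e1 : l + (N₀ + l * M') % M ≡ l + (N₀ + l * M') [MOD M] :=
      Nat.ModEq.add_left l (Nat.mod_modEq _ _)
    have e2 : l + (N₀ + l * M') = N₀ + M * l := by
      rw [hM', Nat.succ_eq_add_one]
      ring
    rw [e2] at e1
    refine e1.trans ?_
    unfold Nat.ModEq
    rw [Nat.add_mul_mod_self_left]
  have hN1 : l + (N₀ + l * M') % M ≡ z [MOD 8] :=
    (hNN.of_mul_right O).trans hN8
  have hN2 : l + (N₀ + l * M') % M ≡ x [MOD O] :=
    (hNN.of_mul_left 8).trans hNO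
  refine ⟨l + (N₀ + l * M') % M, ?_, Nat.le_add_right _ _, ?_, ?_⟩
  · rw [Nat.odd_iff]
    unfold Nat.ModEq at hN1
    omega
  · have := Nat.mod_lt (N₀ + l * M') hM0
    omega
  · rw [hM]
    refine (Nat.modEq_and_modEq_iff_modEq_mul h8O).1 ⟨?_, ?_⟩
    · exact (hN1.mul_left _).trans hz8
    · exact (hN2.mul_left _).trans hx

end Pool.Agent.H89.HLU
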